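import Pool.Agent.Run7.h987.SE.Iface

set_option autoImplicit false

open MeasureTheory Set Filter Topology
open scoped ENNReal symmDiff

namespace Run7.h417.SE

open Pool.Agent.Run7.h987.SE

open ProbabilityTheory in
/-- The distribution function of an atomless law takes a value at most `u` with probability `u`. -/
theorem measure_cdf_le (Q : Measure ℝ) [IsProbabilityMeasure Q] (hQ : ∀ t, Q {t} = 0)
    (u : ℝ) (h0 : 0 ≤ u) (h1 : u ≤ 1) :
    Q {t | cdf Q t ≤ u} = ENNReal.ofReal u := by
  have hcont : Continuous (cdf Q) := by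
    refine continuous_iff_continuousAt.2 fun a => ?_
    rw [(monotone_cdf Q).continuousAt_iff_leftLim_eq_rightLim, (cdf Q).rightLim_eq]
    refine le_antisymm ((monotone_cdf Q).leftLim_le le_rfl) ?_
    have := (cdf Q).measure_singleton a
    rw [measure_cdf, hQ a] at this
    have h2 := ENNReal.ofReal_eq_zero.1 this.symm
    linarith
  have hiv : ∀ v : ℝ, 0 < v → v < 1 → ∃ t0, cdf Q t0 = v := by
    intro v hv0 hv1
    have ha : ∃ a, cdf Q a ≤ v := by
      have := ((tendsto_cdf_atBot Q).eventually (gt_mem_nhds hv0)).exists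
      exact this.imp fun a ha => ha.le
    have hb : ∃ b, v ≤ cdf Q b := by
      have := ((tendsto_cdf_atTop Q).eventually (lt_mem_nhds hv1)).exists
      exact this.imp fun a ha => ha.le
    exact mem_range_of_exists_le_of_exists_ge hcont ha hb
  have hup : ∀ v : ℝ, 0 < v → v < 1 → Q {t | cdf Q t < v} ≤ ENNReal.ofReal v := by
    intro v hv0 hv1
    obtain ⟨t0, ht0⟩ := hiv v hv0 hv1
    rw [← ht0, ofReal_cdf]
    refine measure_mono fun t ht => ?_
    simp only [mem_ofPred_eq] at ht
    simp only [mem_Iic]
    by_contra hlt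
    push Not at hlt
    have := monotone_cdf Q hlt.le
    linarith
  rcases h1.lt_or_eq with h1 | h1
  · apply le_antisymm
    · have : Tendsto (fun v : ℝ => ENNReal.ofReal v) (𝓝[>] u) (𝓝 (ENNReal.ofReal u)) :=
        (ENNReal.continuous_ofReal.tendsto u).mono_left nhdsWithin_le_nhds
      refine ge_of_tendsto this ?_
      filter_upwards [Ioo_mem_nhdsGT h1] with v hv
      refine le_trans (measure_mono fun t ht => ?_) (hup v (h0.trans_lt hv.1) hv.2)
      simp only [mem_ofPred_eq] at ht ⊢
      exact ht.trans_lt hv.1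
    · rcases h0.lt_or_eq with h0 | h0
      · obtain ⟨t0, ht0⟩ := hiv u h0 h1
        rw [← ht0, ofReal_cdf]
        exact measure_mono fun t ht => monotone_cdf Q ht
      · rw [← h0]; simp
  · rw [h1]
    have : {t | cdf Q t ≤ 1} = Set.univ := eq_univ_of_forall fun t => cdf_le_one Q t
    rw [this]; simp

open ProbabilityTheory in
/-- The distribution function as a map to the unit interval. -/
noncomputable def cdfI (Q : Measure ℝ) (t : ℝ) : unitInterval := ⟨cdf Q t, cdf_nonneg Q t, cdf_le_one Q t⟩

open ProbabilityTheory in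
theorem map_cdfI (Q : Measure ℝ) [IsProbabilityMeasure Q] (hQ : ∀ t, Q {t} = 0) :
    Q.map (cdfI Q) = volume := by
  have hm : Measurable (cdfI Q) := (monotone_cdf Q).measurable.subtype_mk
  have : IsProbabilityMeasure (Q.map (cdfI Q)) := Measure.isProbabilityMeasure_map hm.aemeasurable
  refine Measure.ext_of_Iic _ _ fun u => ?_
  rw [Measure.map_apply hm measurableSet_Iic]
  have : cdfI Q ⁻¹' Iic u = {t | cdf Q t ≤ u} := rfl
  rw [this, measure_cdf_le Q hQ u u.2.1 u.2.2]
  rw [unitInterval.volume_def,
    (MeasurableEmbedding.subtype_coe measurableSet_Icc).comap_apply]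
  have : ((↑) : unitInterval → ℝ) '' (Iic u) = Icc 0 (u : ℝ) := by
    ext t
    constructor
    · rintro ⟨v, hv, rfl⟩
      exact ⟨v.2.1, hv⟩
    · rintro ⟨ht0, ht1⟩
      exact ⟨⟨t, ht0, ht1.trans u.2.2⟩, ht1, rfl⟩
  rw [this, Real.volume_Icc, sub_zero]


lemma uncountable_of_atomless {X : Type} [MeasurableSpace X] (μ : Measure X)
    [IsProbabilityMeasure μ] (h : ∀ x, μ {x} = 0) : ¬ Countable X := by
  intro hc
  have h1 : μ univ = 0 := by
    have h2 : (univ : Set X) = ⋃ x : X, {x} := by
      ext x
      simp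
    rw [h2]
    exact measure_iUnion_null h
  rw [measure_univ] at h1
  exact one_ne_zero h1

lemma null_unc {X : Type} [MeasurableSpace X] [StandardBorelSpace X] (μ : Measure X)
    [IsProbabilityMeasure μ] (h : ¬ Countable X) :
    ∃ M : Set X, MeasurableSet M ∧ μ M = 0 ∧ ¬ M.Countable := by
  have hR : ¬ Countable (ℝ × ℝ) := by
    intro hc
    have : Countable ℝ := (Prod.mk_right_injective (0 : ℝ)).countable
    exact not_countable this
  let e : X ≃ᵐ ℝ × ℝ := PolishSpace.measurableEquivOfNotCountable h hR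
  have hg : Measurable fun x => (e x).1 := measurable_fst.comp e.measurable
  have hc := Measure.countable_meas_level_set_pos (μ := μ) hg
  have : ∃ a : ℝ, ¬ (0 < μ {x | (e x).1 = a}) := by
    by_contra hcon
    push Not at hcon
    have : {t : ℝ | 0 < μ {a | (e a).1 = t}} = univ := eq_univ_of_forall hcon
    rw [this] at hc
    exact not_countable_univ hc
  obtain ⟨a, ha⟩ := this
  refine ⟨{x | (e x).1 = a}, hg (measurableSet_singleton a), by simpa using ha, ?_⟩
  intro hcount
  have : Countable ℝ := by
    have hc' : Countable {x | (e x).1 = a} := hcount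
    let k : ℝ → {x | (e x).1 = a} := fun t => ⟨e.symm (a, t), by simp⟩
    have hk : Function.Injective k := by
      intro s t hst
      have h1 : e.symm (a, s) = e.symm (a, t) := congrArg Subtype.val hst
      have h2 := e.symm.injective h1
      exact (Prod.mk.inj h2).2
    exact hk.countable
  exact not_countable this

lemma glue {X Y : Type} [MeasurableSpace X] [StandardBorelSpace X] [MeasurableSpace Y]
    [StandardBorelSpace Y] (μ : Measure X) (ν : Measure Y) [IsProbabilityMeasure μ]
    [IsProbabilityMeasure ν] (hX : ¬ Countable X) (hY : ¬ Countable Y) (F : X → Y)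
    (hF : Measurable F) (hmap : μ.map F = ν) (X0 : Set X) (hX0 : MeasurableSet X0)
    (hn : μ X0ᶜ = 0) (hinj : InjOn F X0) : ∃ e : X ≃ᵐ Y, μ.map e = ν := by
  classical
  obtain ⟨M, hM, hM0, hMu⟩ := null_unc μ hX
  obtain ⟨N, hN, hN0, hNu⟩ := null_unc ν hY
  set X1 : Set X := X0 \ (M ∪ F ⁻¹' N) with hX1def
  have hX1 : MeasurableSet X1 := hX0.diff (hM.union (hF hN))
  have hX1n : μ X1ᶜ = 0 := by
    have hsub : X1ᶜ ⊆ X0ᶜ ∪ (M ∪ F ⁻¹' N) := by
      intro x hx
      by_contra hcon
      simp only [mem_union, mem_compl_iff, not_or, not_not] at hcon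
      exact hx ⟨hcon.1, fun h => by
        rcases h with h | h
        · exact hcon.2.1 h
        · exact hcon.2.2 h⟩
    refine measure_mono_null hsub ?_
    rw [measure_union_null_iff, measure_union_null_iff]
    refine ⟨hn, hM0, ?_⟩
    rw [← Measure.map_apply hF hN, hmap]
    exact hN0
  have : StandardBorelSpace X1 := hX1.standardBorel
  let g : X1 → Y := fun x => F x
  have hgm : Measurable g := hF.comp measurable_subtype_coe
  have hgi : Function.Injective g := by
    intro x y hxy
    exact Subtype.ext (hinj x.2.1 y.2.1 hxy)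
  have hge := hgm.measurableEmbedding hgi
  have hY1 : MeasurableSet (range g) := hge.measurableSet_range
  let e1 : X1 ≃ᵐ range g := hge.equivRange
  have hXc : ¬ Countable (X1ᶜ : Set X) := by
    intro hc
    apply hMu
    have h1 : (X1ᶜ : Set X).Countable := hc
    refine h1.mono ?_
    intro x hx hx1
    exact hx1.2 (Or.inl hx)
  have hYc : ¬ Countable ((range g)ᶜ : Set Y) := by
    intro hc
    apply hNu
    have h1 : ((range g)ᶜ : Set Y).Countable := hc
    refine h1.mono ?_
    rintro y hy ⟨x, rfl⟩
    exact x.2.2 (Or.inr hy)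
  have : StandardBorelSpace (X1ᶜ : Set X) := hX1.compl.standardBorel
  have : StandardBorelSpace ((range g)ᶜ : Set Y) := hY1.compl.standardBorel
  let e2 : (X1ᶜ : Set X) ≃ᵐ ((range g)ᶜ : Set Y) :=
    PolishSpace.measurableEquivOfNotCountable hXc hYc
  let e : X ≃ᵐ Y := (MeasurableEquiv.sumCompl hX1).symm.trans
    ((MeasurableEquiv.sumCongr e1 e2).trans (MeasurableEquiv.sumCompl hY1))
  have he : ∀ x (hx : x ∈ X1), e x = F x := by
    intro x hx
    have h1 : (MeasurableEquiv.sumCompl hX1).symm x = Sum.inl ⟨x, hx⟩ := by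
      rw [MeasurableEquiv.symm_apply_eq]
      rfl
    show (MeasurableEquiv.sumCompl hY1) ((MeasurableEquiv.sumCongr e1 e2)
      ((MeasurableEquiv.sumCompl hX1).symm x)) = F x
    rw [h1]
    show ((e1 ⟨x, hx⟩ : range g) : Y) = F x
    rw [MeasurableEmbedding.equivRange_apply]
  refine ⟨e, ?_⟩
  rw [← hmap]
  apply Measure.map_congr
  have : ∀ᵐ x ∂μ, x ∈ X1 := by
    rw [ae_iff]
    exact hX1n
  filter_upwards [this] with x hx
  exact he x hx

lemma base (Q : Measure ℝ) [IsProbabilityMeasure Q] (hQ : ∀ t, Q {t} = 0) :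
    ∃ e : ℝ ≃ᵐ unitInterval, Q.map e = volume := by
  have hm : Measurable (cdfI Q) := (ProbabilityTheory.monotone_cdf Q).measurable.subtype_mk
  set D : Set unitInterval := range fun q : ℚ => cdfI Q (q : ℝ) with hD
  have hDc : D.Countable := countable_range _
  have hDm : MeasurableSet D := hDc.measurableSet
  have hI : ¬ Countable unitInterval := by
    apply uncountable_of_atomless (volume : Measure unitInterval)
    intro x
    exact measure_singleton x
  refine glue Q volume (fun h => not_countable h) hI (cdfI Q) hm (map_cdfI Q hQ)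
    (cdfI Q ⁻¹' Dᶜ) (hm hDm.compl) ?_ ?_
  · rw [← preimage_compl, compl_compl, ← Measure.map_apply hm hDm, map_cdfI Q hQ]
    exact hDc.measure_zero _
  · have key : ∀ x y : ℝ, x < y → cdfI Q x = cdfI Q y → cdfI Q x ∈ D := by
      intro x y hxy he
      obtain ⟨q, hq1, hq2⟩ := exists_rat_btwn hxy
      refine ⟨q, ?_⟩
      have h1 : ProbabilityTheory.cdf Q x ≤ ProbabilityTheory.cdf Q q :=
        ProbabilityTheory.monotone_cdf Q hq1.le
      have h2 : ProbabilityTheory.cdf Q q ≤ ProbabilityTheory.cdf Q y :=
        ProbabilityTheory.monotone_cdf Q hq2.le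
      have h3 : ProbabilityTheory.cdf Q x = ProbabilityTheory.cdf Q y := congrArg Subtype.val he
      apply Subtype.ext
      show ProbabilityTheory.cdf Q q = ProbabilityTheory.cdf Q x
      linarith
    intro x hx y hy hxy
    rcases lt_trichotomy x y with h | h | h
    · exact absurd (key x y h hxy) hx
    · exact h
    · exact absurd (key y x h hxy.symm) hy

lemma toI (X : Type) [MeasurableSpace X] [StandardBorelSpace X] (μ : Measure X)
    [IsProbabilityMeasure μ] (h : ∀ x, μ {x} = 0) : ∃ e : X ≃ᵐ unitInterval, μ.map e = volume := by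
  have hX := uncountable_of_atomless μ h
  let e0 : X ≃ᵐ ℝ := PolishSpace.measurableEquivOfNotCountable hX (fun h => not_countable h)
  have hp : IsProbabilityMeasure (μ.map e0) :=
    Measure.isProbabilityMeasure_map e0.measurable.aemeasurable
  obtain ⟨e1, he1⟩ := base (μ.map e0) (by
    intro t
    rw [Measure.map_apply e0.measurable (measurableSet_singleton t)]
    have : e0 ⁻¹' {t} = {e0.symm t} := by
      ext x
      simp [MeasurableEquiv.eq_symm_apply]
    rw [this]
    exact h _)
  refine ⟨e0.trans e1, ?_⟩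
  rw [← he1, Measure.map_map e1.measurable e0.measurable]
  rfl

theorem t_ISO : P_ISO := by
  intro X Z _ _ _ _ μ ν _ _ hμ hν
  obtain ⟨e, he⟩ := toI X μ hμ
  obtain ⟨f, hf⟩ := toI Z ν hν
  refine ⟨e.trans f.symm, ?_⟩
  have h1 : ν = (volume : Measure unitInterval).map f.symm := by
    rw [← hf, Measure.map_map f.symm.measurable f.measurable]
    simp
  rw [h1, ← he, Measure.map_map f.symm.measurable e.measurable]
  rfl

end Run7.h417.SE
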