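import Pool.Agent.Run7.h987.SE.Iface

set_option autoImplicit false

open MeasureTheory Set
open scoped ENNReal symmDiff

namespace Run7.h417.SE

open Pool.Agent.Run7.h987.SE

variable {Γ : Type}

/-- bounded measurable functions -/
def Bd (f : (Γ → Bool) → ℝ) : Prop := Measurable f ∧ ∃ M : ℝ, ∀ x, |f x| ≤ M

lemma Bd.int {f : (Γ → Bool) → ℝ} (h : Bd f) : Integrable f (nu Γ) := by
  obtain ⟨hm, M, hM⟩ := h
  exact Integrable.of_bound hm.aestronglyMeasurable M (Filter.Eventually.of_forall hM)

lemma Bd.add {f g : (Γ → Bool) → ℝ} (hf : Bd f) (hg : Bd g) : Bd fun x => f x + g x := by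
  obtain ⟨hm, M, hM⟩ := hf
  obtain ⟨hm', M', hM'⟩ := hg
  exact ⟨hm.add hm', M + M', fun x => (abs_add_le _ _).trans (add_le_add (hM x) (hM' x))⟩

lemma Bd.mul {f g : (Γ → Bool) → ℝ} (hf : Bd f) (hg : Bd g) : Bd fun x => f x * g x := by
  obtain ⟨hm, M, hM⟩ := hf
  obtain ⟨hm', M', hM'⟩ := hg
  refine ⟨hm.mul hm', M * M', fun x => ?_⟩
  rw [abs_mul]
  exact mul_le_mul (hM x) (hM' x) (abs_nonneg _) ((abs_nonneg _).trans (hM x))

lemma Bd.const (r : ℝ) : Bd (Γ := Γ) fun _ => r := ⟨measurable_const, |r|, fun _ => le_rfl⟩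

lemma Bd.sub {f g : (Γ → Bool) → ℝ} (hf : Bd f) (hg : Bd g) : Bd fun x => f x - g x := by
  have := hf.add ((Bd.const (-1)).mul hg)
  have e : (fun x => f x + -1 * g x) = fun x => f x - g x := by
    funext x
    ring
  rw [e] at this
  exact this

lemma Bd.sq {f : (Γ → Bool) → ℝ} (hf : Bd f) : Bd fun x => f x ^ 2 := by
  have := hf.mul hf
  have e : (fun x => f x * f x) = fun x => f x ^ 2 := by
    funext x
    ring
  rw [e] at this
  exact this

lemma Bd.comp {f : (Γ → Bool) → ℝ} (hf : Bd f) {T : (Γ → Bool) → (Γ → Bool)}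
    (hT : Measurable T) : Bd fun x => f (T x) :=
  ⟨hf.1.comp hT, hf.2.imp fun _ hM x => hM (T x)⟩

lemma Bd.ind {B : Set (Γ → Bool)} (hB : MeasurableSet B) :
    Bd (B.indicator fun _ => (1 : ℝ)) := by
  refine ⟨measurable_const.indicator hB, 1, fun x => ?_⟩
  by_cases hx : x ∈ B
  · simp [indicator_of_mem hx]
  · simp [indicator_of_notMem hx]

lemma Bd.sum {ι : Type*} (s : Finset ι) (f : ι → (Γ → Bool) → ℝ) (h : ∀ i ∈ s, Bd (f i)) :
    Bd fun x => ∑ i ∈ s, f i x := by
  classical
  induction s using Finset.induction_on with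
  | empty => simpa using Bd.const (Γ := Γ) 0
  | insert a s ha ih =>
    have h1 := (h a (Finset.mem_insert_self a s)).add
      (ih fun i hi => h i (Finset.mem_insert_of_mem hi))
    have e : (fun x => ∑ i ∈ insert a s, f i x) = fun x => f a x + ∑ i ∈ s, f i x := by
      funext x
      rw [Finset.sum_insert ha]
    rw [e]
    exact h1

lemma wpoly_eq (c : Finset Γ →₀ ℝ) (x : Γ → Bool) :
    wpoly c x = ∑ S ∈ c.support, c S * walsh S x := rfl

lemma wpoly_add (c d : Finset Γ →₀ ℝ) (x : Γ → Bool) :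
    wpoly (c + d) x = wpoly c x + wpoly d x := by
  classical
  unfold wpoly
  exact Finsupp.sum_add_index' (fun _ => by simp) (fun _ _ _ => by ring)

lemma wpoly_sub (c d : Finset Γ →₀ ℝ) (x : Γ → Bool) :
    wpoly (c - d) x = wpoly c x - wpoly d x := by
  unfold wpoly
  exact Finsupp.sum_sub_index (fun _ _ _ => by ring)

lemma walsh_bd (hO : P_ORTH) (S : Finset Γ) : Bd (walsh S) := by
  classical
  exact ⟨(hO Γ S S).1, 1, (hO Γ S S).2.1⟩

lemma wpoly_bd (hO : P_ORTH) (c : Finset Γ →₀ ℝ) : Bd (wpoly c) := by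
  have h := Bd.sum c.support (fun S x => c S * walsh S x)
    (fun S _ => (Bd.const (c S)).mul (walsh_bd hO S))
  exact h

lemma orth [DecidableEq Γ] (hO : P_ORTH) (S T : Finset Γ) :
    ∫ x, walsh S x * walsh T x ∂(nu Γ) = if S = T then 1 else 0 := (hO Γ S T).2.2

lemma int_sq (hO : P_ORTH) (c : Finset Γ →₀ ℝ) :
    ∫ x, wpoly c x ^ 2 ∂(nu Γ) = ∑ S ∈ c.support, c S ^ 2 := by
  classical
  have e : (fun x => wpoly c x ^ 2) =
      fun x => ∑ S ∈ c.support, ∑ T ∈ c.support, (c S * c T) * (walsh S x * walsh T x) := by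
    funext x
    rw [pow_two, wpoly_eq, Finset.sum_mul_sum]
    refine Finset.sum_congr rfl fun S _ => Finset.sum_congr rfl fun T _ => ?_
    ring
  rw [e, integral_finsetSum]
  · refine Finset.sum_congr rfl fun S hS => ?_
    rw [integral_finsetSum]
    · have : ∀ T ∈ c.support, ∫ x, (c S * c T) * (walsh S x * walsh T x) ∂(nu Γ)
          = if S = T then c S ^ 2 else 0 := by
        intro T _
        rw [integral_const_mul, orth hO]
        by_cases h : S = T
        · subst h
          simp
          ring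
        · simp [h]
      rw [Finset.sum_congr rfl this, Finset.sum_ite_eq, if_pos hS]
    · intro T _
      exact ((Bd.const (c S * c T)).mul ((walsh_bd hO S).mul (walsh_bd hO T))).int
  · intro S _
    exact (Bd.sum c.support (fun T x => (c S * c T) * (walsh S x * walsh T x))
      (fun T _ => (Bd.const (c S * c T)).mul ((walsh_bd hO S).mul (walsh_bd hO T)))).int

lemma walsh_empty (x : Γ → Bool) : walsh (∅ : Finset Γ) x = 1 := by simp [walsh]

lemma int_wpoly (hO : P_ORTH) (c : Finset Γ →₀ ℝ) : ∫ x, wpoly c x ∂(nu Γ) = c ∅ := by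
  classical
  have e : (fun x => wpoly c x) =
      fun x => ∑ S ∈ c.support, c S * (walsh S x * walsh ∅ x) := by
    funext x
    rw [wpoly_eq]
    refine Finset.sum_congr rfl fun S _ => ?_
    rw [walsh_empty, mul_one]
  rw [e, integral_finsetSum]
  · have : ∀ S ∈ c.support, ∫ x, c S * (walsh S x * walsh ∅ x) ∂(nu Γ)
        = if S = ∅ then c S else 0 := by
      intro S _
      rw [integral_const_mul, orth hO]
      split_ifs <;> simp
    rw [Finset.sum_congr rfl this, Finset.sum_ite_eq']
    split_ifs with h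
    · rfl
    · exact (Finsupp.notMem_support_iff.mp h).symm
  · intro S _
    exact ((Bd.const (c S)).mul ((walsh_bd hO S).mul (walsh_bd hO ∅))).int

lemma walsh_shift [Group Γ] [DecidableEq Γ] (g : Γ) (S : Finset Γ) (x : Γ → Bool) :
    walsh S (shift g x) = walsh (S.image fun h => g⁻¹ * h) x := by
  unfold walsh shift
  rw [Finset.prod_image]
  intro a _ b _ hab
  exact mul_left_cancel hab

/-- translation of finite sets -/
def tr [Group Γ] [DecidableEq Γ] (g : Γ) : Finset Γ ≃ Finset Γ where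
  toFun S := S.image fun h => g * h
  invFun S := S.image fun h => g⁻¹ * h
  left_inv S := by
    show (S.image fun h => g * h).image (fun h => g⁻¹ * h) = S
    rw [Finset.image_image]
    have : ((fun h => g⁻¹ * h) ∘ fun h => g * h) = (id : Γ → Γ) := by
      funext h
      simp
    rw [this, Finset.image_id]
  right_inv S := by
    show (S.image fun h => g⁻¹ * h).image (fun h => g * h) = S
    rw [Finset.image_image]
    have : ((fun h => g * h) ∘ fun h => g⁻¹ * h) = (id : Γ → Γ) := by
      funext h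
      simp
    rw [this, Finset.image_id]

lemma wpoly_shift [Group Γ] [DecidableEq Γ] (g : Γ) (c : Finset Γ →₀ ℝ) (x : Γ → Bool) :
    wpoly c (shift g x) = wpoly (Finsupp.equivMapDomain (tr g).symm c) x := by
  unfold wpoly
  rw [Finsupp.sum_equivMapDomain]
  refine Finset.sum_congr rfl fun S _ => ?_
  show c S * walsh S (shift g x) = c S * walsh (S.image fun h => g⁻¹ * h) x
  rw [walsh_shift]

lemma finsum_eq [Group Γ] [DecidableEq Γ] (hO : P_ORTH) (g : Γ) (c : Finset Γ →₀ ℝ) :
    ∑ᶠ S : Finset Γ, (c (S.image fun h => g * h) - c S) ^ 2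
      = ∫ x, (wpoly c (shift g x) - wpoly c x) ^ 2 ∂(nu Γ) := by
  have e : (fun x : Γ → Bool => (wpoly c (shift g x) - wpoly c x) ^ 2) =
      fun x => wpoly (Finsupp.equivMapDomain (tr g).symm c - c) x ^ 2 := by
    funext x
    rw [wpoly_sub, wpoly_shift]
  rw [e, int_sq hO]
  have h1 : ∀ S, (Finsupp.equivMapDomain (tr g).symm c - c) S
      = c (S.image fun h => g * h) - c S := fun S => rfl
  rw [finsum_eq_sum_of_support_subset (s := (Finsupp.equivMapDomain (tr g).symm c - c).support)]
  · rfl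
  · intro S hS
    rw [Finset.mem_coe, Finsupp.mem_support_iff, h1]
    intro h0
    apply hS
    show (c (S.image fun h => g * h) - c S) ^ 2 = 0
    rw [h0]
    norm_num

lemma shift_img [Group Γ] (g : Γ) (B : Set (Γ → Bool)) :
    shift g '' B = shift g⁻¹ ⁻¹' B := by
  ext x
  constructor
  · rintro ⟨y, hy, rfl⟩
    show shift g⁻¹ (shift g y) ∈ B
    have : shift g⁻¹ (shift g y) = y := by
      funext h
      simp [shift]
    rw [this]
    exact hy
  · intro hx
    refine ⟨shift g⁻¹ x, hx, ?_⟩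
    funext h
    simp [shift]

theorem t_SERG (hO : P_ORTH) (hS : P_SHIFT) (hD : P_DENS) (hC : P_CORE) : P_SERG := by
  intro Γ _ _ hna
  classical
  obtain ⟨F0, δ0, hδ0, hcore⟩ := hC Γ hna
  refine ⟨F0.image fun g => g⁻¹, 6 / δ0, by positivity, ?_⟩
  intro B δ hB hBF
  set p : ℝ := (nu Γ).real B with hp
  have hind := Bd.ind hB
  have hint1 : ∫ x, B.indicator (fun _ => (1 : ℝ)) x ∂(nu Γ) = p := by
    have := integral_indicator_one (μ := nu Γ) hB
    exact this
  have key : ∀ η : ℝ, 0 < η → p * (1 - p) ≤ 2 / δ0 * (3 * (2 * η + δ)) + 2 * η := by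
    intro η hη
    obtain ⟨c, hc⟩ := hD Γ B hB η hη
    set c0 : Finset Γ →₀ ℝ := c.erase ∅ with hc0
    have hc00 : c0 ∅ = 0 := by simp [hc0]
    have hw : ∀ x, wpoly c x = c ∅ + wpoly c0 x := by
      intro x
      have h1 : c = Finsupp.single ∅ (c ∅) + c0 := by
        rw [hc0, Finsupp.single_add_erase]
      conv_lhs => rw [h1]
      rw [wpoly_add]
      congr 1
      unfold wpoly
      rw [Finsupp.sum_single_index (by simp), walsh_empty, mul_one]
    set f : (Γ → Bool) → ℝ := wpoly c0 with hf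
    have hfb : Bd f := wpoly_bd hO c0
    set v : (Γ → Bool) → ℝ := fun x => B.indicator (fun _ => (1 : ℝ)) x - p with hv
    have hvb : Bd v := hind.sub (Bd.const p)
    have hwb : Bd fun x => v x - f x := hvb.sub hfb
    have hintv : ∫ x, v x ∂(nu Γ) = 0 := by
      rw [hv, integral_sub hind.int (Bd.const p).int, hint1, integral_const]
      simp
    have hintf : ∫ x, f x ∂(nu Γ) = 0 := by
      rw [hf, int_wpoly hO, hc00]
    have hintw : ∫ x, (v x - f x) ∂(nu Γ) = 0 := by
      rw [integral_sub hvb.int hfb.int, hintv, hintf, sub_zero]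
    -- the L2 distance
    have hA : ∫ x, (v x - f x) ^ 2 ∂(nu Γ) ≤ η := by
      have e : (fun x => (B.indicator (fun _ => (1 : ℝ)) x - wpoly c x) ^ 2)
          = fun x => (v x - f x) ^ 2 + ((2 * (p - c ∅)) * (v x - f x) + (p - c ∅) ^ 2) := by
        funext x
        rw [hw x]
        simp only [hv, hf]
        ring
      rw [e, integral_add hwb.sq.int
        (((Bd.const (2 * (p - c ∅))).mul hwb).add (Bd.const ((p - c ∅) ^ 2))).int,
        integral_add ((Bd.const (2 * (p - c ∅))).mul hwb).int (Bd.const ((p - c ∅) ^ 2)).int,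
        integral_const_mul, hintw, integral_const] at hc
      simp only [probReal_univ, smul_eq_mul, mul_zero, one_mul, zero_add] at hc
      nlinarith [sq_nonneg (p - c ∅)]
    obtain ⟨γ, hγ, hγc⟩ := hcore c0 hc00
    rw [finsum_eq hO γ c0, ← int_sq hO c0] at hγc
    have hTm : Measurable (shift γ) := ((hS Γ).1 γ).1
    have hTp : (nu Γ).map (shift γ) = nu Γ := ((hS Γ).1 γ).2
    have hsd := hBF γ⁻¹ (Finset.mem_image_of_mem _ hγ)
    have himg : shift γ⁻¹ '' B = shift γ ⁻¹' B := by
      rw [shift_img, inv_inv]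
    rw [himg] at hsd
    have hE : ∫ x, (v (shift γ x) - v x) ^ 2 ∂(nu Γ) ≤ δ := by
      have hms : MeasurableSet ((shift γ ⁻¹' B) ∆ B) := (hTm hB).symmDiff hB
      have e : (fun x => (v (shift γ x) - v x) ^ 2)
          = ((shift γ ⁻¹' B) ∆ B).indicator (fun _ => (1 : ℝ)) := by
        funext x
        simp only [hv]
        by_cases h1 : shift γ x ∈ B <;> by_cases h2 : x ∈ B
        · have : x ∉ (shift γ ⁻¹' B) ∆ B := by
            rw [Set.mem_symmDiff]
            push Not
            exact ⟨fun _ => h2, fun _ => h1⟩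
          rw [indicator_of_mem h1, indicator_of_mem h2, indicator_of_notMem this]
          ring
        · have : x ∈ (shift γ ⁻¹' B) ∆ B := by
            rw [Set.mem_symmDiff]
            exact Or.inl ⟨h1, h2⟩
          rw [indicator_of_mem h1, indicator_of_notMem h2, indicator_of_mem this]
          ring
        · have : x ∈ (shift γ ⁻¹' B) ∆ B := by
            rw [Set.mem_symmDiff]
            exact Or.inr ⟨h2, h1⟩
          rw [indicator_of_notMem h1, indicator_of_mem h2, indicator_of_mem this]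
          ring
        · have : x ∉ (shift γ ⁻¹' B) ∆ B := by
            rw [Set.mem_symmDiff]
            push Not
            exact ⟨fun h => absurd h h1, fun h => absurd h h2⟩
          rw [indicator_of_notMem h1, indicator_of_notMem h2, indicator_of_notMem this]
          ring
      rw [e]
      have := integral_indicator_one (μ := nu Γ) hms
      exact (le_of_eq this).trans hsd
    have hG : ∫ x, (v (shift γ x) - f (shift γ x)) ^ 2 ∂(nu Γ) ≤ η := by
      have h1 : ∫ y, (v y - f y) ^ 2 ∂((nu Γ).map (shift γ))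
          = ∫ x, (v (shift γ x) - f (shift γ x)) ^ 2 ∂(nu Γ) :=
        integral_map hTm.aemeasurable hwb.sq.1.aestronglyMeasurable
      rw [hTp] at h1
      rw [← h1]
      exact hA
    have hH : ∫ x, (f (shift γ x) - f x) ^ 2 ∂(nu Γ) ≤ 3 * (2 * η + δ) := by
      have b1 : Bd fun x => (v (shift γ x) - f (shift γ x)) ^ 2 := (hwb.comp hTm).sq
      have b2 : Bd fun x => (v (shift γ x) - v x) ^ 2 := ((hvb.comp hTm).sub hvb).sq
      have b3 : Bd fun x => (v x - f x) ^ 2 := hwb.sq
      have b4 : Bd fun x => (f (shift γ x) - f x) ^ 2 := ((hfb.comp hTm).sub hfb).sq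
      have h1 : ∫ x, (f (shift γ x) - f x) ^ 2 ∂(nu Γ) ≤
          ∫ x, 3 * (((v (shift γ x) - f (shift γ x)) ^ 2 + (v (shift γ x) - v x) ^ 2)
            + (v x - f x) ^ 2) ∂(nu Γ) := by
        refine integral_mono b4.int ((Bd.const 3).mul ((b1.add b2).add b3)).int fun x => ?_
        show (f (shift γ x) - f x) ^ 2 ≤ 3 * (((v (shift γ x) - f (shift γ x)) ^ 2
          + (v (shift γ x) - v x) ^ 2) + (v x - f x) ^ 2)
        nlinarith [sq_nonneg ((v (shift γ x) - f (shift γ x)) + (v (shift γ x) - v x)),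
          sq_nonneg ((v (shift γ x) - f (shift γ x)) + (v x - f x)),
          sq_nonneg ((v (shift γ x) - v x) - (v x - f x))]
      rw [integral_const_mul, integral_add (b1.add b2).int b3.int,
        integral_add b1.int b2.int] at h1
      linarith
    have hI : ∫ x, v x ^ 2 ∂(nu Γ) = p * (1 - p) := by
      have e : (fun x => v x ^ 2) = fun x => (1 - 2 * p) * B.indicator (fun _ => (1 : ℝ)) x + p ^ 2 := by
        funext x
        simp only [hv]
        by_cases h : x ∈ B
        · rw [indicator_of_mem h]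
          ring
        · rw [indicator_of_notMem h]
          ring
      rw [e, integral_add ((Bd.const (1 - 2 * p)).mul hind).int (Bd.const (p ^ 2)).int,
        integral_const_mul, hint1, integral_const]
      simp only [probReal_univ, smul_eq_mul, one_mul]
      ring
    have hJ : ∫ x, v x ^ 2 ∂(nu Γ) ≤ 2 * ∫ x, f x ^ 2 ∂(nu Γ) + 2 * η := by
      have h1 : ∫ x, v x ^ 2 ∂(nu Γ) ≤ ∫ x, (2 * f x ^ 2 + 2 * (v x - f x) ^ 2) ∂(nu Γ) := by
        refine integral_mono hvb.sq.int
          (((Bd.const 2).mul hfb.sq).add ((Bd.const 2).mul hwb.sq)).int fun x => ?_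
        show v x ^ 2 ≤ 2 * f x ^ 2 + 2 * (v x - f x) ^ 2
        nlinarith [sq_nonneg (f x - (v x - f x))]
      rw [integral_add ((Bd.const 2).mul hfb.sq).int ((Bd.const 2).mul hwb.sq).int,
        integral_const_mul, integral_const_mul] at h1
      linarith
    have hK : ∫ x, f x ^ 2 ∂(nu Γ) ≤ 1 / δ0 * (3 * (2 * η + δ)) := by
      rw [one_div, inv_mul_eq_div, le_div_iff₀ hδ0]
      linarith
    rw [← hI]
    have e2 : 2 / δ0 * (3 * (2 * η + δ)) = 2 * (1 / δ0 * (3 * (2 * η + δ))) := by ring
    rw [e2]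
    linarith
  apply le_of_forall_pos_le_add
  intro ε hε
  have hK : 0 < 12 / δ0 + 2 := by positivity
  have h := key (ε / (12 / δ0 + 2)) (by positivity)
  have e : 2 / δ0 * (3 * (2 * (ε / (12 / δ0 + 2)) + δ)) + 2 * (ε / (12 / δ0 + 2))
      = 6 / δ0 * δ + (12 / δ0 + 2) * (ε / (12 / δ0 + 2)) := by ring
  rw [e, mul_div_cancel₀ _ hK.ne'] at h
  exact h

end Run7.h417.SE
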