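import Pool.Agent.Run7.h987.SE.Iface

set_option autoImplicit false

open MeasureTheory Set
open scoped ENNReal symmDiff

namespace Run7.h417.SE

open Pool.Agent.Run7.h987.SE

lemma act_image {Γ : Type} [Group Γ] {X : Type} [MeasurableSpace X] {μ : Measure X}
    (a : PMPAction Γ X μ) (γ : Γ) (B : Set X) : a.act γ '' B = a.act γ⁻¹ ⁻¹' B := by
  ext x
  constructor
  · rintro ⟨y, hy, rfl⟩
    show a.act γ⁻¹ (a.act γ y) ∈ B
    rw [← a.act_mul, inv_mul_cancel, a.act_one]
    exact hy
  · intro hx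
    exact ⟨a.act γ⁻¹ x, hx, by rw [← a.act_mul, mul_inv_cancel, a.act_one]⟩

lemma act_image_meas {Γ : Type} [Group Γ] {X : Type} [MeasurableSpace X] {μ : Measure X}
    (a : PMPAction Γ X μ) (γ : Γ) {B : Set X} (hB : MeasurableSet B) :
    MeasurableSet (a.act γ '' B) := by
  rw [act_image]
  exact a.meas _ hB

lemma act_real {Γ : Type} [Group Γ] {X : Type} [MeasurableSpace X] {μ : Measure X}
    (a : PMPAction Γ X μ) (γ : Γ) {B : Set X} (hB : MeasurableSet B) :
    μ.real (a.act γ '' B) = μ.real B := by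
  rw [act_image, measureReal_def, measureReal_def, ← Measure.map_apply (a.meas _) hB, a.pres]

lemma real_symm {Γ : Type} [Group Γ] {X : Type} [MeasurableSpace X] {μ : Measure X}
    [IsProbabilityMeasure μ]
    (a : PMPAction Γ X μ) (γ : Γ) {B : Set X} (hB : MeasurableSet B) :
    μ.real ((a.act γ '' B) ∆ B) = 2 * μ.real B - 2 * μ.real (a.act γ '' B ∩ B) := by
  have hm := act_image_meas a γ hB
  have h1 : μ.real ((a.act γ '' B) ∆ B) = μ.real (a.act γ '' B \ B) + μ.real (B \ a.act γ '' B) :=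
    measureReal_symmDiff_eq hm hB
  have h2 := measureReal_inter_add_sdiff (μ := μ) (s := a.act γ '' B) hB
  have h3 := measureReal_inter_add_sdiff (μ := μ) (s := B) hm
  rw [inter_comm B] at h3
  rw [act_real a γ hB] at h2
  rw [h1]
  linarith

theorem t_WC : P_WC := by
  intro Γ _ X _ μ _ a b hw r hr F δ hδ
  classical
  obtain ⟨A, hA, hAr, hAF⟩ := hr (insert 1 F) (δ / 8) (by positivity)
  obtain ⟨B, hB, hBF⟩ := hw (insert 1 F) (δ / 8) (by positivity) 1 (fun _ => A) (fun _ => hA)
  have hone : ∀ (c : PMPAction Γ X μ) (S : Set X), c.act 1 '' S ∩ S = S := by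
    intro c S
    rw [act_image, inv_one]
    have : c.act 1 ⁻¹' S = S := by
      ext x
      simp [c.act_one]
    rw [this, inter_self]
  have h1 := hBF 1 (by simp) 0 0
  rw [hone, hone] at h1
  rw [abs_lt] at h1 hAr
  refine ⟨B 0, hB 0, ?_, ?_⟩
  · rw [abs_lt]
    constructor <;> linarith [h1.1, h1.2, hAr.1, hAr.2]
  · intro γ hγ
    have h2 := hBF γ (by simp [hγ]) 0 0
    have h3 := hAF γ (by simp [hγ])
    rw [real_symm b γ hA] at h3
    rw [real_symm a γ (hB 0)]
    rw [abs_lt] at h2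
    linarith [h1.1, h1.2, h2.1, h2.2]

end Run7.h417.SE
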